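import Pool.Agent.Run7.h527.TP.Ex
import Pool.Agent.Results.MP_0b15c0_nt.MultiplicativeValues

/-!
# Small witnesses for the strong pseudoprimality test near aliquot sums, cototients and arithmetic derivatives

Let `g(m)` be the sum of the proper divisors of `m`, the cototient `m - φ(m)`, the arithmetic derivative `m'` (with `p' = 1`
for primes and Leibniz' rule), or any positive combination `α m + β f(m)` with `f = σ`, `φ` or the arithmetic derivative. Let
`G` have steps bounded below by a positive constant and growth at most `v^d`, `A ≥ 2`, `κ ≥ 0` and `d / A + κ < τ ≤ 1`. For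
all `m ≤ N` which have two prime factors `p ≠ q`, not dividing `m / (p q) ≥ 2`, with `p q ≥ m^τ`, but at most `N^(1 - η)` of
them, EVERY integer `n ≥ 2` with `|n - G (g m)| ≤ g(m)^κ` is prime or has a witness `b ≤ 2 (log n)^A`. For `d = 1`, `A = 2`
this concerns nearly all `m` (`τ` near `1/2`).

Proof. Write `m = k p q`. Then `g(m) = a p q + b (p + q) + c` with integers `a ≠ 0`, `b`, `c` which depend on `k` only, and
`(a p + b) (a q + b) = a g(m) + b² - a c`. So for given `k ≤ N^(1 - τ)` every value is taken for at most `N^ε` pairs `p`, `q`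
(the tool `Run7/h527/TP`), and the exceptional integers are few by the starting theorem `SquareRootExceptions`.
-/

set_option autoImplicit false

namespace Pool.Agent.Results.MP_0b15c0_nt.AliquotSums

open Finset
open Pool.Agent.N733.TG (Expanding expanding_pow)
open Pool.Agent.Results.MP_0b15c0_nt.SquareRootExceptions (IsWitness Exceptions)
open Pool.Agent.Results.MP_0b15c0_nt.MultiplicativeValues (Decided)
open Run7.h527.TP (Bil Two good_nat aliquot cototient deriv sig comb)

/-- **Small witnesses near the values of functions which are bilinear in two large primes.** Let `g` be of the class `Bil`,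
let `G` have steps `≥ a > 0` and growth at most `v^d`. Let `A ≥ 2`, `κ ≥ 0` and `d / A + κ < τ ≤ 1`. There is `η > 0` such
that for all large `N`, for all `m ≤ N` with `Two τ m` but at most `N^(1 - η)`, EVERY integer `n ≥ 2` with
`|n - G (g m)| ≤ g(m)^κ` is prime or has a witness `1 < b ≤ 2 (log n)^A`. The sum of the proper divisors, the cototient, the
arithmetic derivative and their positive combinations with the identity are examples of such functions `g`. -/
theorem result :
    (∀ g : ℕ → ℕ, Bil g → ∀ (G : ℕ → ℝ) (d : ℝ), Expanding G d → ∀ A κ τ : ℝ, 2 ≤ A → 0 ≤ κ → d / A + κ < τ → τ ≤ 1 →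
      ∃ η : ℝ, 0 < η ∧ ∃ N₀ : ℕ, ∀ N : ℕ, N₀ ≤ N →
      ({m : ℕ | 1 ≤ m ∧ m ≤ N ∧ Two τ m ∧
        ¬ ∀ n : ℕ, 2 ≤ n → |(n : ℝ) - G (g m)| ≤ (g m : ℝ) ^ κ → Decided A n}.ncard : ℝ) ≤ (N : ℝ) ^ (1 - η)) ∧
    (Bil aliquot ∧ Bil cototient ∧ Bil deriv ∧
      (∀ α β : ℤ, (∀ m : ℕ, 2 ≤ m → 0 < α * m + β * sig m) → Bil (comb α β sig)) ∧
      (∀ α β : ℤ, (∀ m : ℕ, 2 ≤ m → 0 < α * m + β * Nat.totient m) → Bil (comb α β Nat.totient)) ∧
      ∀ α β : ℤ, (∀ m : ℕ, 2 ≤ m → 0 < α * m + β * deriv m) → Bil (comb α β deriv)) ∧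
    ∀ α d : ℝ, 0 < α → 1 ≤ d → Expanding (fun v => α * (v : ℝ) ^ d) d := by
  refine ⟨fun g hg G d hG A κ τ hA hκ h1 hτ => ?_, Run7.h527.TP.examples, fun α d hα hd => expanding_pow hα hd⟩
  obtain ⟨η, hη, N₀, hN₀⟩ := good_nat (fun n => 2 ≤ n) (Decided A) hg hG (s := 1 / A) (κ := κ) (by positivity) hκ
    (by rw [mul_one_div]; exact h1) hτ (fun ε hε => by
      obtain ⟨K, hK⟩ := Pool.Agent.Results.MP_0b15c0_nt.SquareRootExceptions.result A ε hA hε
      refine ⟨K, fun X hX => le_trans ?_ (hK X hX).2⟩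
      have : {t : ℕ | 1 ≤ t ∧ t ≤ X ∧ 2 ≤ t ∧ ¬ Decided A t} ⊆ Exceptions A X := by
        rintro n ⟨_, h4, h2, h3⟩
        unfold Decided at h3
        push Not at h3
        exact ⟨h4, h2, h3.1, fun ⟨b, b1, b2, b3⟩ => h3.2 b b1 b2 b3⟩
      exact_mod_cast Set.ncard_le_ncard this (hK X hX).1)
  refine ⟨η, hη, N₀, fun N hN => le_trans (le_of_eq ?_) (hN₀ N hN)⟩
  congr 2
  ext m
  simp only [Set.mem_ofPred_eq]
  have : (∀ n : ℕ, 2 ≤ n → |(n : ℝ) - G (g m)| ≤ (g m : ℝ) ^ κ → Decided A n) ↔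
      ∀ n : ℕ, 1 ≤ n → 2 ≤ n → |(n : ℝ) - G (g m)| ≤ (g m : ℝ) ^ κ → Decided A n :=
    ⟨fun h n _ => h n, fun h n hn => h n (by omega) hn⟩
  rw [this]

end Pool.Agent.Results.MP_0b15c0_nt.AliquotSums
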