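import Mathlib
import Pool.Agent.Run7.h306.Top

/-!
# Small witnesses for the strong pseudoprimality test: fewer than the square root of exceptions

Unconditionally all but `O(x^0.499)` of the composite numbers `n ≤ x` have a prime witness
`b ≤ 2 (log n)²`.

Proof. Let `n` be an exception in `(x/2, x]`. It is squarefree, for each small prime `ℓ` the exponent of two in
the order of `ℓ` is the same modulo all prime divisors `p` of `n`, and this exponent and the exponent of two in
`p - 1` determine the symbol `(ℓ/p)`: all prime divisors of `n` lie in one class. By Heath-Brown's large sieve for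
real characters there are at most `X^(1/2+ε)` primes up to `X` in a class, and at most `X^(1/2+ε)` composite
numbers up to `X` all of whose prime divisors lie in one (variable) class. Modulo `p` the small primes generate a
group whose order `g` is at least `p^(1/2-ε)`, and `g` divides `n - 1` and `m - 1` for `n = p m`.

First, a class contains at most `K^(4/5+ε)` primes `1 + g k` with `k ≤ K`: one averages over `k` the square of a
product of sums of the characters `((1 + g k)/ℓ)` over disjoint blocks of small primes `ℓ`. If the largest prime
divisor `p` of `n` exceeds `x^δ` and `m` is composite, this leaves only `(x/m)^(2/5+ε)` possibilities for `p` when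
`m` is given, and one sums over `m`. The same argument works for products of two primes with different exponents
of two. If `n = p q` and these exponents are equal, let `G = gcd (p - 1, q - 1)`. The larger sieve shows that the
order `g` is at most `G` for at most `G x^ε` primes `p`, and given `p` and `G` there are few `q = 1 + G b`. This
suffices if `G ≤ x^(1/2-τ)`; for larger `G` one fixes `a` and `b` in `p = 1 + G a`, `q = 1 + G b` and uses the
characters `((1 + G a)(1 + G b)/ℓ)`, whose complete sums are bounded by one.

If all prime divisors of `n` are at most `x^δ`, let `D` be a divisor slightly above `x^0.985`, and `f` the least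
common multiple of the orders `g` for the primes dividing `D`. Then `n` is divisible by `D` and is `1` modulo
`f`, which suffices if `f ≥ x^0.0149`. For each smaller `f` and each class, the primes up to `P` of the class
whose `g` divides `f` number at most `P^0.4696`: for `log P ≤ (log x)^0.938` by the large sieve, as `2 (log x)²`
is then a larger power of `log P`, and for other `P` since `f` has few divisors up to `P`; Rankin's trick bounds
the number of their products.
-/

set_option autoImplicit false

namespace Pool.Agent.Results.MP_0b15c0_nt.BelowSquareRoot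

/-- `n` fails the strong test for the base `b`: writing `n - 1 = 2 ^ j * d` with `d` odd, neither
`b ^ d = 1` nor `b ^ (2 ^ i * d) = -1` for some `i < j`, modulo `n`. -/
def IsWitness (n b : ℕ) : Prop :=
  ∀ j d : ℕ, n - 1 = 2 ^ j * d → Odd d →
    (b : ZMod n) ^ d ≠ 1 ∧ ∀ i : ℕ, i < j → (b : ZMod n) ^ (2 ^ i * d) ≠ -1

/-- the composite numbers at most `x` without a prime witness `b ≤ 2 (log n)^2` -/
def Exceptions (x : ℕ) : Set ℕ :=
  {n : ℕ | n ≤ x ∧ 2 ≤ n ∧ ¬ n.Prime ∧
    ¬ ∃ b : ℕ, b.Prime ∧ (b : ℝ) ≤ 2 * (Real.log n) ^ 2 ∧ IsWitness n b}

/-- There is `K` such that for all `x ≥ 1` at most `K x^(499/1000)` composite `n ≤ x` have no prime witness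
`b ≤ 2 (log n)^2`. -/
theorem result : ∃ K : ℝ, ∀ x : ℕ, 1 ≤ x →
    (Exceptions x).Finite ∧ ((Exceptions x).ncard : ℝ) ≤ K * (x : ℝ) ^ (499 / 1000 : ℝ) := by
  classical
  obtain ⟨K, _, hK⟩ := Run7.h306.main_count
  refine ⟨K, fun x hx => ?_⟩
  have h1 : Exceptions x ⊆ (((Finset.Icc 1 x).filter Run7.h306.Bp : Finset ℕ) : Set ℕ) := by
    intro n hn
    obtain ⟨h1, h2, h3, h4⟩ := hn
    rw [Finset.mem_coe, Finset.mem_filter, Finset.mem_Icc]
    refine ⟨⟨by omega, h1⟩, h2, h3, fun b hb1 hb2 => ?_⟩
    by_contra hp
    apply h4
    refine ⟨b, hb1, hb2, fun j d hjd hd => ⟨fun e => ?_, fun i hi e => ?_⟩⟩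
    · exact hp ⟨j, d, hjd, hd, Or.inl e⟩
    · exact hp ⟨j, d, hjd, hd, Or.inr ⟨i, hi, e⟩⟩
  have h2 : (Exceptions x).Finite := (Finset.finite_toSet _).subset h1
  refine ⟨h2, le_trans ?_ (hK x hx)⟩
  have h3 := Set.ncard_le_ncard h1 (Finset.finite_toSet _)
  rw [Set.ncard_coe_finset] at h3
  exact_mod_cast h3

end Pool.Agent.Results.MP_0b15c0_nt.BelowSquareRoot
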