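import Pool.Agent.Run7.h440.WT.D

/-!
# Composite numbers whose least witness is larger than a power of `n` are rarer than `log log x`

Let `W(n)` be the least witness of the composite number `n` for the strong pseudoprimality test. For every
`θ > 0` at most `K(θ)` composite numbers in each interval `(√x, x]` have no witness `1 < b ≤ n ^ θ`, and so
at most `C log log x` up to `x`. For `0 < a < 1` at most `exp ((log x) ^ (1 - a + ε))` of them have no
witness `1 < b ≤ exp ((log n) ^ a)`. In general, if `x ^ 2 ≤ y ^ J` and `y ≥ (K J ^ 2) ^ 8`, then at most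
`288 (K J ^ 2) ^ (2 J)` composite numbers up to `x` have no witness `1 < b ≤ y`.

Proof. Let `n ≤ x` be an exception (for the bound `y`). It is squarefree and its prime factors are larger than
`y`. Let `u` be the least exponent of `2` in the numbers `q - 1`, `q ∣ n`. For each prime `q ∣ n` there is
a character `ψ_q` modulo `q`, of order a power of two (not only quadratic), which takes at each base `b ≤ y`
for which `n` passes a sign that does not depend on `q`. Hence the product of `ψ_q` over an even number of prime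
factors is a primitive character with the value `1` at `1, …, y`. The number of prime factors of `n` being
even or odd, `n` is determined by one or two conductors of this kind, and by the large sieve for characters and
the lower bound for the number of `y`-smooth numbers there are few such conductors up to `x`.
-/

set_option autoImplicit false

namespace Pool.Agent.Results.MP_0b15c0_nt.LogLogExceptions

open Pool.Agent.H379R2.W Pool.Agent.Run7.h440.WT Real

/-- `n` fails the strong test for the base `b`: writing `n - 1 = 2 ^ j * d` with `d` odd, neither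
`b ^ d = 1` nor `b ^ (2 ^ i * d) = -1` for some `i < j`, modulo `n`. -/
def IsWitness (n b : ℕ) : Prop :=
  ∀ j d : ℕ, n - 1 = 2 ^ j * d → Odd d →
    (b : ZMod n) ^ d ≠ 1 ∧ ∀ i : ℕ, i < j → (b : ZMod n) ^ (2 ^ i * d) ≠ -1

/-- the composite numbers `n` without a witness in `1 < b ≤ Y n` -/
def Exceptions (Y : ℕ → ℝ) : Set ℕ :=
  {n : ℕ | 2 ≤ n ∧ ¬ n.Prime ∧ ¬ ∃ b : ℕ, 1 < b ∧ (b : ℝ) ≤ Y n ∧ IsWitness n b}

theorem exceptions_subset (Y : ℕ → ℝ) : Exceptions Y ⊆ SS Y := by
  intro n hn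
  obtain ⟨h2, h3, h4⟩ := hn
  refine ⟨h2, h3, fun b hb1 hb2 => ?_⟩
  by_contra hp
  apply h4
  refine ⟨b, hb1, hb2, fun j d hjd hd => ⟨fun e => ?_, fun i hi e => ?_⟩⟩
  · exact hp ⟨j, d, hjd, hd, Or.inl e⟩
  · exact hp ⟨j, d, hjd, hd, Or.inr ⟨i, hi, e⟩⟩

theorem ncard_le {x : ℕ} {P : ℕ → Prop} [DecidablePred P] {S : Set ℕ} (h : ∀ n : ℕ, n ∈ S → n ≤ x ∧ P n) :
    (S.ncard : ℝ) ≤ ((Finset.range (x + 1)).filter P).card := by
  have h1 : S ⊆ (((Finset.range (x + 1)).filter P : Finset ℕ) : Set ℕ) := by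
    intro n hn
    rw [Finset.mem_coe, Finset.mem_filter, Finset.mem_range]
    exact ⟨Nat.lt_succ_of_le (h n hn).1, (h n hn).2⟩
  have h3 := Set.ncard_le_ncard h1 (Finset.finite_toSet _)
  rw [Set.ncard_coe_finset] at h3
  exact_mod_cast h3

/-- **Main result.** (1) For every `θ > 0` there is `K` such that for all `x` at most `K` composite `n` with
`√x < n ≤ x` have no witness `1 < b ≤ n ^ θ`; for some `C` and all `x ≥ 16` at most `C log log x`
composite `n ≤ x` have no witness `1 < b ≤ n ^ θ`. (2) For `0 < a < 1`, `ε > 0` and all large `x` at most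
`exp ((log x) ^ (1 - a + ε))` composite `n ≤ x` have no witness `1 < b ≤ exp ((log n) ^ a)`. (3) There is
`K` such that for all `x, y` and `J ≥ 1` with `x ^ 2 ≤ y ^ J` and `(K J ^ 2) ^ 8 ≤ y` at most
`288 (K J ^ 2) ^ (2 J)` composite `n ≤ x` have no witness `1 < b ≤ y`. -/
theorem result :
    (∀ θ : ℝ, 0 < θ →
      (∃ K : ℝ, ∀ x : ℕ,
        ({n : ℕ | n ≤ x ∧ x < n ^ 2 ∧ n ∈ Exceptions (fun n => (n : ℝ) ^ θ)}.ncard : ℝ) ≤ K) ∧
      ∃ C : ℝ, ∀ x : ℕ, 16 ≤ x →
        ({n : ℕ | n ≤ x ∧ n ∈ Exceptions (fun n => (n : ℝ) ^ θ)}.ncard : ℝ) ≤ C * log (log x)) ∧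
    (∀ a ε : ℝ, 0 < a → a < 1 → 0 < ε → ∃ x₀ : ℕ, ∀ x : ℕ, x₀ ≤ x →
      ({n : ℕ | n ≤ x ∧ n ∈ Exceptions (fun n => exp ((log n) ^ a))}.ncard : ℝ) ≤
        exp ((log x) ^ (1 - a + ε))) ∧
    ∃ K : ℝ, 8 ≤ K ∧ ∀ x y J : ℕ, 1 ≤ J → x ^ 2 ≤ y ^ J → (K * (J : ℝ) ^ 2) ^ 8 ≤ y →
      ({n : ℕ | n ≤ x ∧ n ∈ Exceptions (fun _ => (y : ℝ))}.ncard : ℝ) ≤
        288 * (K * (J : ℝ) ^ 2) ^ (2 * J) := by
  classical
  refine ⟨fun θ hθ => ⟨?_, ?_⟩, fun a ε ha ha1 hε => ?_, ?_⟩
  · obtain ⟨K, x₀, hK0, hK⟩ := theta_part hθ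
    refine ⟨max K x₀, fun x => ?_⟩
    rcases Nat.lt_or_ge x x₀ with h | h
    · refine le_trans (ncard_le (x := x) (P := fun _ => True) fun n hn => ⟨hn.1, trivial⟩) ?_
      refine le_trans ?_ (le_max_right _ _)
      have : ((Finset.range (x + 1)).filter (fun _ : ℕ => True)).card ≤ x₀ :=
        (Finset.card_filter_le _ _).trans ((Finset.card_range _).le.trans h)
      exact_mod_cast this
    · refine le_trans (ncard_le (x := x) (P := fun n => x < n ^ 2 ∧ n ∈ SS (fun n => (n : ℝ) ^ θ))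
        fun n hn => ⟨hn.1, hn.2.1, exceptions_subset _ hn.2.2⟩) ?_
      refine le_trans ?_ (le_max_left K (x₀ : ℝ))
      convert hK x h
  · obtain ⟨C, hC⟩ := theta_total hθ
    refine ⟨C, fun x hx => le_trans (ncard_le (x := x) (P := fun n => n ∈ SS (fun n => (n : ℝ) ^ θ))
      fun n hn => ⟨hn.1, exceptions_subset _ hn.2⟩) (hC x hx)⟩
  · obtain ⟨x₀, hx₀⟩ := sub_total ha ha1 hε
    refine ⟨x₀, fun x hx => le_trans (ncard_le (x := x)
      (P := fun n => n ∈ SS (fun n => exp ((log n) ^ a)))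
      fun n hn => ⟨hn.1, exceptions_subset _ hn.2⟩) (hx₀ x hx)⟩
  · obtain ⟨K, hK, hU⟩ := unif
    refine ⟨K, hK, fun x y J hJ hxy hKy => le_trans (ncard_le (x := x)
      (P := fun n => 2 ≤ n ∧ ¬ n.Prime ∧ Ps y n) fun n hn => ?_) (?_)⟩
    · obtain ⟨h1, h2, h3⟩ := exceptions_subset _ hn.2
      exact ⟨hn.1, h1, h2, fun b hb1 hb2 => h3 b hb1 (Nat.cast_le.2 hb2)⟩
    · have := hU x y J hJ hxy hKy
      unfold Exc at this
      convert this

end Pool.Agent.Results.MP_0b15c0_nt.LogLogExceptions
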