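import Pool.Agent.Run7.h430.TW.RProd
import Pool.Agent.Run7.h430.TW.Kit2
import Pool.Agent.Results.MP_0b15c0_nt.SquareRootExceptions

/-!
# Small witnesses for the strong pseudoprimality test along almost all orbits of Euler's function, and for their products

Let `φ_k` be the `k`-th iterate of Euler's function, `φ_0(m) = m`. Let `f`, `g` be positive multiplicative functions of at most
polynomial growth such that `f p ≤ M p` for the large primes `p`, with different values at different large primes; for example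
the identity, Euler's function or the sum of the divisors. Let `F`, `G` be functions with steps bounded below by a positive
constant and growth at most `v^d`, `v^d'` (for example `α v^d`). Let `A ≥ 2`, `κ ≥ 0`; `A = 2` is the range of the question.

(1) One orbit. If `d / A + κ < 1`, there is `K(m)` tending to infinity such that for almost all `m`, for ALL `k, a ≤ K(m)`,
`a ≥ 1`, with `v = f(φ_k(m))`, EVERY integer `n ≥ 2` with `|n - a F(v)| ≤ K(m) v^κ` is prime or has a witness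
`1 < b ≤ 2 (log n)^A`. For example (`d = 1`, `A = 2`, `κ = 1/2 - ε`) all the composite numbers within `φ_k(m)^(1/2 - ε)` of
`a φ_k(m)`, `k, a ≤ K(m)`, have a witness `b ≤ 2 (log n)^2`.

(2) Products of pairs. Let `L ≥ 1`, `c = (1 - 1 / A) / (8 (L + 1)^3)`, and `d (1 - c) + κ < 1`, `d' (1 - c) + κ < 1`. There is `K(m)`
tending to infinity such that for 100% of the pairs `(m, m')` (in every box `[1, N] × [1, N']` with large sides), with
`K = K(min (m, m'))`, for ALL `k, l, a, b ≤ K`, `a, b ≥ 1`, and ALL integers `t, u ≥ 2` with `|t - a F(v)| ≤ K v^κ`,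
`|u - b G(w)| ≤ K w^κ`, `v = f(φ_k(m))`, `w = g(φ_l(m'))`, `t ≤ u^L`, `u ≤ t^L`, the product `n = t u` has a witness
`1 < b ≤ 2 (log n)^A`.

The iterates of Euler's function are not multiplicative, and the values `φ_k(m)`, `m ≤ N`, form a thin set and are taken with
very large multiplicities; so this does not follow from the number of the exceptions (`SquareRootExceptions`, starting files),
which is used here. The tool is `Pool.Agent.N760.IT` (starting files), in the form of `Run7/h430/TW` (multiples, enlarged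
windows; pairs of orbits).
-/

set_option autoImplicit false

namespace Pool.Agent.Results.MP_0b15c0_nt.TotientOrbits

open Finset Filter Topology
open Pool.Agent.Results.MP_0b15c0_nt.SquareRootExceptions (Exceptions)

/-- `n` fails the strong test for the base `b`: writing `n - 1 = 2 ^ j * d` with `d` odd, neither `b ^ d = 1` nor
`b ^ (2 ^ i * d) = -1` for some `i < j`, modulo `n`. -/
def IsWitness (n b : ℕ) : Prop :=
  ∀ j d : ℕ, n - 1 = 2 ^ j * d → Odd d →
    (b : ZMod n) ^ d ≠ 1 ∧ ∀ i : ℕ, i < j → (b : ZMod n) ^ (2 ^ i * d) ≠ -1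

/-- `n` has a witness `1 < b ≤ 2 (log n)^A` for the strong test -/
def Small (A : ℝ) (n : ℕ) : Prop := ∃ b : ℕ, 1 < b ∧ (b : ℝ) ≤ 2 * (Real.log n) ^ A ∧ IsWitness n b

/-- A positive multiplicative function of at most polynomial growth, at most `M p` at the large primes `p` and with different
values at different large primes. -/
structure Moderate (f : ℕ → ℕ) : Prop where
  mul : ∀ m n : ℕ, Nat.Coprime m n → f (m * n) = f m * f n
  pos : ∀ m : ℕ, 1 ≤ m → 1 ≤ f m
  growth : ∃ C D : ℕ, ∀ m : ℕ, 1 ≤ m → f m ≤ C * m ^ D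
  prime : ∃ P M : ℕ, ∀ p : ℕ, P ≤ p → p.Prime → f p ≤ M * p ∧ ∀ q : ℕ, P ≤ q → q.Prime → f q = f p → q = p

/-- The steps of `G` are at least a positive constant, and `G` grows at most like `v ^ d`, `d ≥ 1`. -/
structure Expanding (G : ℕ → ℝ) (d : ℝ) : Prop where
  one_le : 1 ≤ d
  step : ∃ a : ℝ, 0 < a ∧ ∀ v : ℕ, 1 ≤ v → a ≤ G (v + 1) - G v
  growth : ∃ C : ℝ, ∀ v : ℕ, 1 ≤ v → G v ≤ C * (v : ℝ) ^ d

open Classical in
/-- The proportion of the positive integers `m ≤ N` without the property `P` tends to `0`. -/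
def AlmostAll (P : ℕ → Prop) : Prop :=
  Tendsto (fun N : ℕ => (((Icc 1 N).filter (fun m => ¬ P m)).card : ℝ) / N) atTop (𝓝 0)

open Classical in
/-- `P m m'` holds for 100% of the pairs `(m, m')`, in all boxes `[1, N] × [1, N']` with large sides. -/
def AlmostAllPairs (P : ℕ → ℕ → Prop) : Prop :=
  ∀ δ : ℝ, 0 < δ → ∃ N₀ : ℕ, ∀ N N' : ℕ, N₀ ≤ N → N₀ ≤ N' →
    ((((Icc 1 N) ×ˢ (Icc 1 N')).filter (fun p => ¬ P p.1 p.2)).card : ℝ) ≤ δ * ((N : ℝ) * N')

/-- the value of `f` at the `k`-th iterate of Euler's function -/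
def orb (f : ℕ → ℕ) (k m : ℕ) : ℕ := f (Nat.totient^[k] m)

theorem lm_of {f : ℕ → ℕ} (hf : Moderate f) : Pool.Agent.N733.TG.LM f := ⟨hf.mul, hf.pos, hf.growth, hf.prime⟩

theorem of_lm {f : ℕ → ℕ} (hf : Pool.Agent.N733.TG.LM f) : Moderate f := ⟨hf.mul, hf.pos, hf.growth, hf.prime⟩

theorem ex_of {G : ℕ → ℝ} {d : ℝ} (h : Expanding G d) : Pool.Agent.N733.TG.Expanding G d := ⟨h.one_le, h.step, h.growth⟩

theorem aap_of {P : ℕ → ℕ → Prop} (h : Run7.h430.TW.Pairs.PairAA P) : AlmostAllPairs P := h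

/-- the composite numbers without a small witness -/
def Exc (A : ℝ) : Set ℕ := {n | 2 ≤ n ∧ ¬ n.Prime ∧ ¬ Small A n}

open Classical in
theorem few (A : ℝ) (hA : 2 ≤ A) (ε : ℝ) (hε : 0 < ε) : ∃ C : ℝ, ∀ X : ℕ, 1 ≤ X →
    (((Ioc 0 X).filter (fun t => t ∈ Exc A)).card : ℝ) ≤ C * (X : ℝ) ^ (1 / A + ε) := by
  obtain ⟨K, hK⟩ := Pool.Agent.Results.MP_0b15c0_nt.SquareRootExceptions.result A ε hA hε
  refine ⟨K, fun X hX => le_trans ?_ (hK X hX).2⟩
  rw [← Set.ncard_coe_finset]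
  refine Nat.cast_le.2 (Set.ncard_le_ncard ?_ (hK X hX).1)
  intro n hn
  rw [mem_coe, mem_filter, mem_Ioc] at hn
  obtain ⟨⟨-, h1⟩, h2, h3, h4⟩ := hn
  exact ⟨h1, h2, h3, h4⟩

/-- **Small witnesses along orbits of Euler's function and for the products of two numbers along orbits.** -/
theorem result (A κ : ℝ) (hA : 2 ≤ A) (hκ : 0 ≤ κ) :
    (∀ f : ℕ → ℕ, Moderate f → ∀ (F : ℕ → ℝ) (d : ℝ), Expanding F d → d / A + κ < 1 →
      ∃ K : ℕ → ℕ, Tendsto K atTop atTop ∧
        AlmostAll (fun m => ∀ k ≤ K m, ∀ a : ℕ, 1 ≤ a → a ≤ K m → ∀ n : ℕ, 2 ≤ n →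
          |(n : ℝ) - a * F (orb f k m)| ≤ K m * (orb f k m : ℝ) ^ κ → n.Prime ∨ Small A n)) ∧
    (∀ f g : ℕ → ℕ, Moderate f → Moderate g → ∀ (F G : ℕ → ℝ) (d d' : ℝ), Expanding F d → Expanding G d' →
      ∀ L : ℕ, d * (1 - (1 - 1 / A) / (8 * ((L : ℝ) + 1) ^ 3)) + κ < 1 →
      d' * (1 - (1 - 1 / A) / (8 * ((L : ℝ) + 1) ^ 3)) + κ < 1 →
      ∃ K : ℕ → ℕ, Tendsto K atTop atTop ∧ AlmostAllPairs (fun m m' => ∀ k ≤ K (min m m'), ∀ l ≤ K (min m m'),
        ∀ a b : ℕ, 1 ≤ a → a ≤ K (min m m') → 1 ≤ b → b ≤ K (min m m') → ∀ t u : ℕ, 2 ≤ t → 2 ≤ u →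
          |(t : ℝ) - a * F (orb f k m)| ≤ K (min m m') * (orb f k m : ℝ) ^ κ →
          |(u : ℝ) - b * G (orb g l m')| ≤ K (min m m') * (orb g l m' : ℝ) ^ κ →
          t ≤ u ^ L → u ≤ t ^ L → Small A (t * u))) ∧
    (Moderate (fun m => m) ∧ Moderate Nat.totient ∧ Moderate (fun m => ∑ d ∈ m.divisors, d)) ∧
    ∀ a d : ℝ, 0 < a → 1 ≤ d → Expanding (fun v => a * (v : ℝ) ^ d) d := by
  have hA0 : 0 < A := by linarith
  have hA1 : 1 / A < 1 := by
    rw [div_lt_one hA0]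
    linarith
  refine ⟨fun f hf F d hF h1 => ?_, fun f g hf hg F G d d' hF hG L h1 h2 => ?_,
    ⟨of_lm Pool.Agent.N760.IT.lm_id, of_lm Pool.Agent.N733.TG.lm_totient, of_lm Pool.Agent.N733.TG.lm_sigma⟩,
    fun a d ha hd => ?_⟩
  · obtain ⟨K, hK, h2⟩ := Run7.h430.TW.kit_nat (Exc A) (lm_of hf) (ex_of hF) (s := 1 / A) (by positivity) hκ
      (by rw [mul_one_div]; exact h1) (fun ε hε => by
        obtain ⟨C, hC⟩ := few A hA ε hε
        refine ⟨C, fun X hX => le_trans (le_of_eq ?_) (hC X hX)⟩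
        congr!)
    refine ⟨K, hK, Pool.Agent.N826.IT.Orb.almostAll_mono h2 (fun m hm k hk a ha1 ha n hn2 hn => ?_)⟩
    by_contra hg
    rw [not_or] at hg
    exact absurd hn (not_le.2 (hm k hk a ha1 ha n (Or.inr ⟨hn2, hg.1, hg.2⟩)))
  · obtain ⟨X₀, hX₀, hbox⟩ := Run7.h430.TW.RPairs.prod_box (P := Exc A) (s := 1 / A) (by positivity) hA1
      (fun ε hε => by
        obtain ⟨C, hC⟩ := few A hA ε hε
        refine ⟨C, fun X hX => le_trans (le_of_eq ?_) (hC X hX)⟩
        congr!) L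
    have e : (1 - 1 / A) / 2 / (4 * ((L : ℝ) + 1) ^ 3) = (1 - 1 / A) / (8 * ((L : ℝ) + 1) ^ 3) := by
      rw [div_div]
      congr 1
      ring
    obtain ⟨K, hK, h3⟩ := Run7.h430.TW.RPairs.pairs_kit (Run7.h430.TW.RPairs.rel_prod (Exc A) L) (by linarith)
      (by have : 0 < 1 / A := by positivity
          linarith) hX₀ hbox (lm_of hf) (lm_of hg) (ex_of hF) (ex_of hG) hκ (by rw [e]; exact h1) (by rw [e]; exact h2)
    refine ⟨K, hK, aap_of (fun δ hδ => ?_)⟩
    obtain ⟨N₀, hN₀⟩ := h3 δ hδ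
    refine ⟨N₀, fun N N' hN hN' => le_trans ?_ (hN₀ N N' hN hN')⟩
    refine Nat.cast_le.2 (Run7.h430.TW.Pairs.card_mono2 (fun p _ hp hq => hp (fun k hk l hl a b ha1 ha hb1 hb t u ht2 hu2
      ht hu h6 h7 => ?_)))
    by_contra hg
    refine hq k hk l hl a b ha1 ha hb1 hb t u ht hu ⟨by omega, by omega, h6, h7, ?_, ?_, hg⟩
    · exact le_trans (by norm_num) (Nat.mul_le_mul ht2 hu2)
    · exact Nat.not_prime_mul (by omega) (by omega)
  · obtain ⟨h1, h2, h3⟩ := Pool.Agent.N733.TG.expanding_pow ha hd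
    exact ⟨h1, h2, h3⟩

end Pool.Agent.Results.MP_0b15c0_nt.TotientOrbits
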